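import Pool.Agent.Lib.MP_44e4f6_lc.LBT

/-!
# Consistency of basis elements of `D^3(U)` with `f 3 ≠ ⊥` off a finite set, or with a given Lipschitz constant, is decidable

`m ≥ 3`, `U = (p, q)`, `(f 0, ..., f m)` a tuple of step functions (finite families of rational single steps) such that only the
orders `m - 3, ..., m` are constrained (for `m = 3` this is no condition). There is an algorithm, a function `D` which is
`Computable` in the sense of Mathlib, which decides from the rational data and a natural number `K` whether the tuple has a solution
`h` for which `h^(m-1)` has the Lipschitz constant `K` on `U`. Every consistent tuple has such a solution for some `K`. If `f m` is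
not `⊥` at all but finitely many points of `U` then each bound `K` of the values of `f m` will do, so that the consistency of these
tuples is decidable. The codes of the rational data are in `Lib/MP_44e4f6_lc/Input.lean`, the definitions of step functions and of
consistency in `Lib/MP_44e4f6_lc/Defs.lean`.

Proof (for `m = 3`; the general case follows by integration, `Gen`). The condition on the Lipschitz constant is the step
`U ↘ [-K, K]` in `f m` (`LB`), so let `f m ≠ ⊥` off a finite set. Two searches run in parallel.

* A consistent tuple has a solution which is a cubic spline of class `C^2` (`Main`, the result `SplineForm`: local replacement of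
  a solution by splines with the same `2`-jets at both ends). The splines with a given number of pieces are described by a system
  of polynomial equations and strict inequalities with rational coefficients (Bernstein coefficients of `h, h', h''` on the pieces,
  slack variables), and such a system has a solution in `ℝ` if and only if it has one in a real algebraic number field `ℚ(α)`
  (`AL`, `Alg`: an Artin-Lang argument). These are found by a search through the minimal polynomials, isolating intervals and
  coefficient vectors (`QP`, `Sg`, `CE`).
* The solutions of a consistent tuple satisfy a priori bounds for `h, h', h''` where `f 0, f 1, f 2` leave a choice (`AB`), and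
  `h''` is Lipschitz, so that on each grid there is a rational approximate solution with errors of the order of the step of the
  grid (`GD`); if there are such approximate solutions on arbitrarily fine grids, then a limit of them is a solution (`GL`, by
  Arzelà-Ascoli). So an inconsistent tuple is found by a search through the grids (`CG`, `CC`).

`Bridge`, `Dec` and `Fin` put the two searches together. That every consistent tuple has a solution with `h^(m-1)` Lipschitz is in
`MainB`: where `f m = ⊥`, one-sided averages of `h^(m-1)` replace it by a Lipschitz function.
-/

namespace Pool.Agent.Results.MP_44e4f6_lc.DecidableTotal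

open MP44e4f6

/-- There is a computable function `D` such that for all rational `p < q`, all `m ≥ 3` and all tuples `(f 0, ..., f m)` of step
functions on `U = (p, q)` (single steps with centre in `U` and positive radius) with `f 0, ..., f (m - 4)` equal to `⊥`: for all
natural numbers `K`, `D` decides whether there is a solution `h` such that `h^(m-1)` has the Lipschitz constant `K` on `U`; the
tuple is consistent if and only if there is such a solution for some `K`; and if `f m` is `⊥` at only finitely many points of `U`
and `K` is a bound for the end points of the values of `f m`, then `D` with this `K` decides whether the tuple is consistent. -/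
theorem result : ∃ D : Input × ℕ → Bool, Computable D ∧ ∀ (x : Input) (p q : ℚ) (m : ℕ),
    p = num x.1.1 → q = num x.1.2 → p < q → x.2.length = m + 1 → 3 ≤ m →
    (∀ d, ∀ s ∈ tuple x d, p < s.c ∧ s.c < q ∧ 0 < s.r) → (∀ d, d + 3 < m → tuple x d = []) →
    (∀ K : ℕ, D (x, K) = true ↔ ∃ h : ℝ → ℝ, Witness (Set.Ioo (p : ℝ) q) m (tuple x) h ∧
      LipschitzOnWith K (iteratedDeriv (m - 1) h) (Set.Ioo (p : ℝ) q)) ∧
    (Consistent (Set.Ioo (p : ℝ) q) m (tuple x) ↔ ∃ K : ℕ, D (x, K) = true) ∧
    ({t : ℝ | t ∈ Set.Ioo (p : ℝ) q ∧ ∀ s ∈ tuple x m, t ∉ s.dom}.Finite →
      ∀ K : ℕ, (∀ s ∈ tuple x m, -(K : ℚ) ≤ s.lo ∧ s.hi ≤ (K : ℚ)) →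
        (D (x, K) = true ↔ Consistent (Set.Ioo (p : ℝ) q) m (tuple x))) :=
  lip_all

end Pool.Agent.Results.MP_44e4f6_lc.DecidableTotal
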