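import Pool.Agent.Lib.MP_44e4f6_lc.SemiE

/-!
# Consistency of basis elements of `D^3(U)` is recursively enumerable

`m ≥ 3`, `U` an open interval with rational or infinite end points, `(f 0, ..., f m)` a tuple of step functions (finite families of
rational single steps) such that only the orders `m - 3, ..., m` are constrained (for `m = 3` this is no condition). The set of all
consistent such tuples is recursively enumerable (`REPred` of Mathlib, as a predicate of the rational data). The codes of the data
are in `Lib/MP_44e4f6_lc/Input.lean` and `Lib/MP_44e4f6_lc/InputE.lean`, the definitions of step functions and of consistency in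
`Lib/MP_44e4f6_lc/Defs.lean`.

Proof. The part of `U` outside the domains of the steps does not matter (`UB`), so let `U` be bounded, and `m = 3` (`Gen`). A
consistent tuple has a solution which is a cubic spline of class `C^2` (`MainB`, the result `SplineForm`). The splines with a given
number of pieces are described by polynomial equations and inequalities with rational coefficients (Bernstein coefficients of `h, h',
h''` on the pieces), such a system has a solution in `ℝ` if and only if it has one in a real algebraic number field `ℚ(α)` (`AL`,
`Alg`), and these are found by a search (`QP`, `Sg`, `CC`).
-/

namespace Pool.Agent.Results.MP_44e4f6_lc.SemiDecidable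

open MP44e4f6

/-- The set of the inputs `(U, [f 0, ..., f m])` such that `m ≥ 3`, `U` is a nonempty open interval, `f 0, ..., f (m - 4)` are equal to
`⊥`, and the tuple `(f 0, ..., f m)` is consistent on `U`, is recursively enumerable. -/
theorem result : REPred (fun x : InputE => (∀ a ∈ x.1.1, ∀ b ∈ x.1.2, num a < num b) ∧
    4 ≤ x.2.length ∧ (∀ d, d + 4 < x.2.length → fam x.2 d = []) ∧
    Consistent (ivl x.1.1 x.1.2) (x.2.length - 1) (fam x.2)) :=
  re_main

end Pool.Agent.Results.MP_44e4f6_lc.SemiDecidable
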