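import Pool.Agent.Lib.MP_44e4f6_lc.MainB

/-!
# Consistent tuples of step functions have piecewise polynomial solutions

`m ≥ 3`, `U = (p, q)`, `(f 0, ..., f m)` a tuple of step functions (finite families of rational single steps) such that only the
orders `m - 3, ..., m` are constrained (for `m = 3` this is no condition). If the tuple is consistent, then it has a solution of
class `C^(m-1)` which is a piecewise polynomial of degree at most `m` with finitely many pieces: there is no chattering, and where
`f m = ⊥` the derivative of order `m - 1` can be made Lipschitz.

Proof (for `m = 3`; the general case follows by integration).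

1. Where `f 3 ≠ ⊥`, the function `a = h''` is Lipschitz. At a point `x` all conditions to the right of `x` are constant on a short
   interval: `h ∈ C0`, `h' ∈ C1`, `h'' ∈ C2`, slopes of `h''` in `[l, u]`. On every short interval `[x, y]` the function is replaced
   by one with the same `h, h', h''` at `x` and at `y`, with piecewise affine second derivative and all the conditions (`rloc`): only
   the conditions which are sharp at `x` matter. The new second derivative is `min (U, max (φ, e1, e2))`, where `U` is the largest
   function with the given slopes and end values, `e1` falls with slope `l` from a point of `U`, `e2` rises with slope `u` to a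
   point of `U` and `φ` is a floor; two applications of the intermediate value theorem give the right moments, and a comparison of
   signs gives `H ≥ h` (`up`), `h'' ≥ h''(x)` (`floor`) or `H' ≥ h'(x)` (`vpos`). The same holds to the left by reflection, and a
   supremum argument glues the pieces (`gglob`).
2. Where `f 3 = ⊥`, the function `h` is first replaced, with the same `2`-jets at the ends, by one with Lipschitz second derivative:
   again only one condition is sharp at a point `x` (on `h`, `h'` or `h''`), it is preserved by the one-sided averages
   `τ⁻¹ ∫_(x-τ)^x` of `h` minus its Taylor polynomial (`stek`), and a small polynomial correction (`corr`) is put where the condition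
   has slack (files `B0` to `B6`).
3. At an end of `U` where `f 3 = ⊥` the solution need not extend to the end; a change of the time variable in `h'` (`tchange`) and,
   where the condition on `h` is sharp at the end, a bump (`bump`) give one which does (files `E0` to `E6`).
-/

namespace Pool.Agent.Results.MP_44e4f6_lc.SplineForm

open MP44e4f6

/-- Let `m ≥ 3`, and let `(f 0, ..., f m)` be a tuple of step functions on `U = (p, q)` such that `f 0, ..., f (m - 4)` are equal to
`⊥`. The tuple is consistent if and only if it has a solution which is a piecewise polynomial of degree at most `m` with finitely
many pieces. -/
theorem result (p q : ℝ) (hpq : p < q) (m : ℕ) (hm : 3 ≤ m) (f : ℕ → List Step)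
    (hbot : ∀ d, d + 3 < m → f d = []) :
    Consistent (Set.Ioo p q) m f ↔ ∃ h : ℝ → ℝ, Witness (Set.Ioo p q) m f h ∧ PP p q m h := by
  obtain ⟨n, rfl⟩ : ∃ n, m = n + 3 := ⟨m - 3, by omega⟩
  constructor
  · rintro ⟨g, hg⟩
    exact main_any hpq n f (fun d hd => hbot d (by omega)) g hg
  · rintro ⟨h, hh, _⟩
    exact ⟨h, hh⟩

end Pool.Agent.Results.MP_44e4f6_lc.SplineForm
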